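import Mathlib
import Pool.Agent.Q32.RA.Fin
set_option autoImplicit false

/-!
# Residual amenability of amalgams over virtually cyclic virtual retracts

The amalgamated free product of two residually amenable groups over a common virtually cyclic
subgroup which is a virtual retract of both factors is residually amenable.
-/

namespace Pool.Agent.Results.MP_71554c_al.ResidualAmenability

universe u

/-- A bounded real function. -/
def IsBounded {G : Type u} (f : G → ℝ) : Prop := ∃ C : ℝ, ∀ x, |f x| ≤ C

/-- A (discrete) group is amenable if there is a left-invariant mean on its bounded real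
functions: an additive, homogeneous, positive functional `M` with `M 1 = 1` and
`M (f (a * ·)) = M f`. -/
def Amenable (G : Type u) [Group G] : Prop :=
  ∃ M : (G → ℝ) → ℝ,
    (∀ f g, IsBounded f → IsBounded g → M (fun x => f x + g x) = M f + M g) ∧
    (∀ (c : ℝ) (f : G → ℝ), IsBounded f → M (fun x => c * f x) = c * M f) ∧
    (∀ f, IsBounded f → (∀ x, 0 ≤ f x) → 0 ≤ M f) ∧ M (fun _ => 1) = 1 ∧
    ∀ (a : G) (f : G → ℝ), IsBounded f → M (fun x => f (a * x)) = M f

/-- A group is residually amenable if every nontrivial element has nontrivial image under some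
homomorphism to an amenable group. -/
def ResiduallyAmenable (G : Type u) [Group G] : Prop :=
  ∀ g : G, g ≠ 1 → ∃ (A : Type u) (_ : Group A) (φ : G →* A), Amenable A ∧ φ g ≠ 1

/-- A group is virtually cyclic if it has a cyclic subgroup of finite index. -/
def VirtuallyCyclic (G : Type u) [Group G] : Prop :=
  ∃ C : Subgroup G, C.FiniteIndex ∧ IsCyclic C

/-- `H` is a virtual retract of `G`: there are a subgroup `K` of finite index containing `H` and a
homomorphism from `K` to `H` whose restriction to `H` is the identity. -/
def IsVirtualRetract {G : Type u} [Group G] (H : Subgroup G) : Prop :=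
  ∃ K : Subgroup G, K.FiniteIndex ∧ ∃ h : H ≤ K, ∃ ρ : K →* H, ∀ x : H, ρ (Subgroup.inclusion h x) = x

/-- Let `G₀` be a virtually cyclic group embedded by `φ i` in two residually amenable groups `G i`
so that its images are virtual retracts. Then the amalgamated free product `Monoid.PushoutI φ` is
residually amenable. -/
theorem result {G : Fin 2 → Type u} {G₀ : Type u} [∀ i, Group (G i)] [Group G₀]
    (φ : ∀ i, G₀ →* G i) (hφ : ∀ i, Function.Injective (φ i)) (h₀ : VirtuallyCyclic G₀)
    (hR : ∀ i, IsVirtualRetract (φ i).range) (hA : ∀ i, ResiduallyAmenable (G i)) :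
    ResiduallyAmenable (Monoid.PushoutI φ) :=
  Q32.RA.final φ hφ h₀ hR hA

end Pool.Agent.Results.MP_71554c_al.ResidualAmenability
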